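import Mathlib
import Pool.Graph.R_seed8.R736.SK.Core
import Pool.Agent.OM_72.Sel

set_option autoImplicit false
set_option linter.all false

/-! # Final-set spaces of posets covered by two `ω₁`-chains, and of `n` copies of `ω₁`

* If a poset `P` is the union of two chains, each of which embeds into `ω₁` or into the reverse of
  `ω₁`, then every closed subspace of `FS(P)` is (scattered and) canonically Skula.
* In particular this holds for the disjoint sum of two copies of `ω₁`, where `FS(P) = (ω₁+1)²` (the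
  case recorded as open in the problem file), while for the disjoint sum of `n ≥ 3` copies it fails.
-/

open Ordinal Set Order Topology Filter

namespace Pool.Agent.Results.MP_87b039_gt.CopiesOfOmegaOne

open Pool.Agent.R736.SK OM72

/-- the well-ordered set `ω₁` -/
abbrev Om : Type := (ω₁ : Ordinal.{0}).ToType

/-- `C` is a chain of order type at most `ω₁`, or the reverse of such a chain. -/
def OmegaChain {P : Type} [PartialOrder P] (C : Set P) : Prop :=
  Nonempty (C ↪o Om) ∨ Nonempty (C ↪o Omᵒᵈ)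

/-- every point of `X` has a Cantor-Bendixson height -/
def Heights (X : Type) [TopologicalSpace X] : Prop :=
  ∀ x : X, ∃ α : Ordinal.{0}, x ∈ cb X α ∧ x ∉ cb X (α + 1)

/-- the ordinal of an element of `ω₁` -/
noncomputable def od (ξ : Om) : Ordinal.{0} := (ToType.mk.symm ξ).1

theorem od_lt (ξ : Om) : od ξ < ω₁ := (ToType.mk.symm ξ).2

theorem od_le_od {ξ η : Om} : od ξ ≤ od η ↔ ξ ≤ η := by
  rw [od, od, Subtype.coe_le_coe, OrderIso.le_iff_le]

theorem od_surj {a : Ordinal.{0}} (ha : a < ω₁) : ∃ ξ, od ξ = a := by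
  refine ⟨ToType.mk ⟨a, ha⟩, ?_⟩
  rw [od, OrderIso.symm_apply_apply]

/-- A coordinate function: `b` marks an initial part of the chain. -/
theorem exists_coord {X : Type} [TopologicalSpace X] {C : Type} (o : C → Ordinal.{0})
    (ho : ∀ c, o c < ω₁) (b : X → C → Bool) (hb : ∀ c, Continuous fun x => b x c)
    (hm : ∀ x c c', o c ≤ o c' → b x c' = true → b x c = true) :
    ∃ f : X → Ordinal.{0}, Continuous f ∧ (∀ x, f x ≤ ω₁) ∧ ∀ x c, b x c = true ↔ o c < f x := by
  classical
  let f : X → Ordinal.{0} := fun x => ⨆ c : {c : C // b x c = true}, succ (o c.1)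
  have hlt : ∀ x c, b x c = true ↔ o c < f x := by
    intro x c
    constructor
    · intro h
      exact lt_of_lt_of_le (Order.lt_succ _)
        (Ordinal.le_iSup (fun c : {c : C // b x c = true} => succ (o c.1)) ⟨c, h⟩)
    · intro h
      obtain ⟨⟨c', hc'⟩, h1⟩ := Ordinal.lt_iSup_iff.1 h
      exact hm x c c' (Order.lt_succ_iff.1 h1) hc'
  have hle : ∀ x β, f x ≤ β ↔ ∀ c, β ≤ o c → b x c = false := by
    intro x β
    constructor
    · intro h c hc
      by_contra hcon
      rw [Bool.not_eq_false] at hcon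
      exact absurd (lt_of_lt_of_le ((hlt x c).1 hcon) h) (not_lt.2 hc)
    · intro h
      refine Ordinal.iSup_le fun c => Order.succ_le_of_lt ?_
      by_contra hcon
      push Not at hcon
      have := h c.1 hcon
      rw [c.2] at this
      exact absurd this (by simp)
  have hclopen : ∀ β, IsClopen {x | f x ≤ β} := by
    intro β
    by_cases hc : ∃ c, β ≤ o c
    · -- the least such element
      obtain ⟨c0, hc0, hmin⟩ : ∃ c0, β ≤ o c0 ∧ ∀ c, β ≤ o c → o c0 ≤ o c := by
        obtain ⟨v, ⟨c0, h1, rfl⟩, h2⟩ := WellFounded.has_min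
          (wellFounded_lt : WellFounded ((· < ·) : Ordinal.{0} → Ordinal.{0} → Prop))
          {v | ∃ c, β ≤ o c ∧ o c = v} (by obtain ⟨c, hc⟩ := hc; exact ⟨_, c, hc, rfl⟩)
        exact ⟨c0, h1, fun c hc => not_lt.1 (h2 _ ⟨c, hc, rfl⟩)⟩
      have : {x | f x ≤ β} = {x | b x c0 = false} := by
        ext x
        simp only [Set.mem_setOf_eq]
        rw [hle]
        constructor
        · intro h
          exact h c0 hc0
        · intro h c hc
          by_contra hcon
          rw [Bool.not_eq_false] at hcon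
          have := hm x c0 c (hmin c hc) hcon
          rw [h] at this
          exact absurd this (by simp)
      rw [this]
      exact (isClopen_discrete ({false} : Set Bool)).preimage (hb c0)
    · have : {x | f x ≤ β} = Set.univ := by
        refine Set.eq_univ_of_forall fun x => ?_
        rw [Set.mem_setOf_eq, hle]
        exact fun c hc' => absurd ⟨c, hc'⟩ hc
      rw [this]
      exact isClopen_univ
  refine ⟨f, ?_, ?_, hlt⟩
  · rw [OrderTopology.continuous_iff]
    intro a
    constructor
    · have : f ⁻¹' Set.Ioi a = {x | f x ≤ a}ᶜ := by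
        ext x
        simp only [Set.mem_preimage, Set.mem_Ioi, Set.mem_compl_iff, Set.mem_setOf_eq, not_le]
      rw [this]
      exact (hclopen a).compl.isOpen
    · have : f ⁻¹' Set.Iio a = ⋃ β : Set.Iio a, {x | f x ≤ β.1} := by
        ext x
        simp only [Set.mem_preimage, Set.mem_Iio, Set.mem_iUnion, Set.mem_setOf_eq]
        exact ⟨fun h => ⟨⟨f x, h⟩, le_rfl⟩, fun ⟨β, h⟩ => lt_of_le_of_lt h β.2⟩
      rw [this]
      exact isOpen_iUnion fun β => (hclopen _).isOpen
  · intro x
    exact Ordinal.iSup_le fun c => Order.succ_le_of_lt (ho _)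

/-- the two local properties of the rank and a closed embedding give `Sq` -/
theorem good_of {X : Type} [TopologicalSpace X] [CompactSpace X] (f g : X → Ordinal.{0})
    (cf : Continuous f) (cg : Continuous g) (inj : ∀ p q, f p = f q → g p = g q → p = q)
    (lf : ∀ p, f p ≤ ω₁) (lg : ∀ p, g p ≤ ω₁) : Heights X ∧ CanonicallySkula X := by
  have hH : Heights X := fun x => height_exists f g cf cg inj x
  obtain ⟨r, hr⟩ := height_spec hH
  have hce : IsClosedEmbedding (fun x => (f x, g x)) :=
    (cf.prodMk cg).isClosedEmbedding fun x y hxy => by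
      simp only [Prod.mk.injEq] at hxy
      exact inj x y hxy.1 hxy.2
  have hSq : Sq f g r := by
    refine ⟨cf, cg, inj, ?_, ?_, lf, lg, ra_of hr, rb_of hr⟩
    · intro p N hN
      rw [hce.isInducing.nhds_eq_comap, Filter.mem_comap] at hN
      obtain ⟨t, ht, hsub⟩ := hN
      obtain ⟨A, hA, B, hB, hAB⟩ := mem_nhds_prod_iff.1 ht
      exact ⟨A, hA, B, hB, fun q h1 h2 => hsub (hAB ⟨h1, h2⟩)⟩
    · intro a b h
      have : (a, b) ∈ closure (Set.range fun x => (f x, g x)) := by
        rw [mem_closure_iff_nhds]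
        intro t ht
        obtain ⟨A, hA, B, hB, hAB⟩ := mem_nhds_prod_iff.1 ht
        obtain ⟨q, h1, h2⟩ := h A hA B hB
        exact ⟨_, hAB ⟨h1, h2⟩, q, rfl⟩
      rw [hce.isClosed_range.closure_eq] at this
      obtain ⟨p, hp⟩ := this
      simp only [Prod.mk.injEq] at hp
      exact ⟨p, hp⟩
  obtain ⟨U, h1, h2, h3, h4⟩ := hSq.exists_selector
  exact ⟨hH, canonicallySkula_of hr U h1 h2 h3 h4⟩

theorem isClosed_FS (P : Type) [PartialOrder P] : IsClosed (FS P) := by
  have : FS P = ⋂ x : P, ⋂ y : P, {F : P → Bool | x ≤ y → F x = true → F y = true} := by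
    ext F
    simp only [FS, Set.mem_setOf_eq, Set.mem_iInter]
  rw [this]
  refine isClosed_iInter fun x => isClosed_iInter fun y => ?_
  by_cases hxy : x ≤ y
  · have h1 : {F : P → Bool | x ≤ y → F x = true → F y = true} =
        {F : P → Bool | F x = false} ∪ {F : P → Bool | F y = true} := by
      ext F
      simp only [hxy, true_imp_iff, Set.mem_setOf_eq, Set.mem_union]
      cases F x <;> cases F y <;> simp
    rw [h1]
    exact (isClosed_eq (continuous_apply x) continuous_const).union
      (isClosed_eq (continuous_apply y) continuous_const)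
  · simp only [hxy, false_imp_iff, Set.setOf_true]
    exact isClosed_univ

/-- the coordinate of a final set along an `ω₁`-chain -/
theorem chain_coord {P : Type} [PartialOrder P] (K : Set (FS P)) {C : Set P} (hC : OmegaChain C) :
    ∃ f : K → Ordinal.{0}, Continuous f ∧ (∀ x, f x ≤ ω₁) ∧
      ∀ x y, f x = f y → ∀ c ∈ C, x.1.1 c = y.1.1 c := by
  rcases hC with ⟨⟨e⟩⟩ | ⟨⟨e⟩⟩
  · obtain ⟨f, hf, hle, h⟩ := exists_coord (X := K) (C := C) (fun c => od (e c)) (fun c => od_lt _)
      (fun x c => !(x.1.1 c.1)) (fun c => by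
        have h1 : Continuous fun x : K => x.1.1 c.1 :=
          (continuous_apply c.1).comp (continuous_subtype_val.comp continuous_subtype_val)
        exact (continuous_of_discreteTopology (f := fun b : Bool => !b)).comp h1) (by
        intro x c c' hcc h1
        have h2 : c.1 ≤ c'.1 := e.le_iff_le.1 (od_le_od.1 hcc)
        have h3 := x.1.2 c.1 c'.1 h2
        simp only [Bool.not_eq_true'] at h1 ⊢
        by_contra hcon
        rw [Bool.not_eq_false] at hcon
        rw [h3 hcon] at h1
        exact absurd h1 (by simp))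
    refine ⟨f, hf, hle, fun x y hxy c hc => ?_⟩
    have h1 := h x ⟨c, hc⟩
    have h2 := h y ⟨c, hc⟩
    rw [hxy] at h1
    have h3 := h1.trans h2.symm
    simp only [Bool.not_eq_true'] at h3
    cases hx : x.1.1 c <;> cases hy : y.1.1 c <;> simp_all
  · obtain ⟨f, hf, hle, h⟩ := exists_coord (X := K) (C := C)
      (fun c => od (OrderDual.ofDual (e c))) (fun c => od_lt _)
      (fun x c => x.1.1 c.1) (fun c =>
        (continuous_apply c.1).comp (continuous_subtype_val.comp continuous_subtype_val)) (by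
        intro x c c' hcc h1
        have h0 : e c' ≤ e c := OrderDual.ofDual_le_ofDual.1 (od_le_od.1 hcc)
        have h2 : c'.1 ≤ c.1 := e.le_iff_le.1 h0
        exact x.1.2 c'.1 c.1 h2 h1)
    refine ⟨f, hf, hle, fun x y hxy c hc => ?_⟩
    have h1 := h x ⟨c, hc⟩
    have h2 := h y ⟨c, hc⟩
    rw [hxy] at h1
    have h3 := h1.trans h2.symm
    cases hx : x.1.1 c <;> cases hy : y.1.1 c <;> simp_all

theorem two_chains {P : Type} [PartialOrder P] {C D : Set P} (hCD : C ∪ D = Set.univ)
    (hC : OmegaChain C) (hD : OmegaChain D) (K : Set (FS P)) (hK : IsClosed K) :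
    Heights K ∧ CanonicallySkula K := by
  have : CompactSpace (FS P) := isCompact_iff_compactSpace.1 (isClosed_FS P).isCompact
  have : CompactSpace K := isCompact_iff_compactSpace.1 hK.isCompact
  obtain ⟨f, cf, lf, hf⟩ := chain_coord K hC
  obtain ⟨g, cg, lg, hg⟩ := chain_coord K hD
  refine good_of f g cf cg (fun p q h1 h2 => ?_) lf lg
  apply Subtype.ext
  apply Subtype.ext
  funext c
  have hc : c ∈ C ∪ D := by rw [hCD]; trivial
  rcases hc with hc | hc
  · exact hf p q h1 c hc
  · exact hg p q h2 c hc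

/-- The disjoint sum of `n` (pairwise incomparable) copies of `ω₁`. -/
abbrev Copies (n : ℕ) : Type := Σ _ : Fin n, Om

theorem narrow_copies (n : ℕ) : Narrow (Copies n) := by
  intro s hs
  refine Set.Finite.of_finite_image (f := Sigma.fst) (Set.toFinite _) ?_
  rintro ⟨i, ξ⟩ hx ⟨j, η⟩ hy (hij : i = j)
  subst hij
  by_contra hne
  rcases le_total ξ η with h1 | h1
  · exact hs hx hy hne (Sigma.mk_le_mk_iff.2 h1)
  · exact hs hy hx (Ne.symm hne) (Sigma.mk_le_mk_iff.2 h1)

theorem scattered_copies (n : ℕ) : OrderScattered (Copies n) := by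
  refine ⟨fun f => ?_⟩
  have hm : StrictMono (fun x : Copies n => x.2) := by
    rintro ⟨i, ξ⟩ ⟨j, η⟩ hlt
    obtain ⟨_, _, _, h1⟩ := hlt
    exact h1
  have hm2 : StrictMono (fun q : ℚ => (f q).2) := hm.comp f.strictMono
  have : WellFoundedLT ℚ := hm2.wellFoundedLT
  have hanti : StrictAnti (fun n : ℕ => (-(n : ℚ))) := fun a b hab => by
    simpa using hab
  obtain ⟨n, hn⟩ := WellFounded.has_min (wellFounded_lt : WellFounded ((· < ·) : ℚ → ℚ → Prop))
    (Set.range (fun n : ℕ => (-(n : ℚ)))) (Set.range_nonempty _)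
  obtain ⟨⟨k, rfl⟩, hmin⟩ := hn
  exact hmin _ ⟨k + 1, rfl⟩ (hanti (Nat.lt_succ_self k))

theorem fiber_chain {n : ℕ} (i : ℕ) (C : Set (Copies n)) (hC : ∀ x ∈ C, x.1.1 = i) :
    OmegaChain C := by
  refine Or.inl ⟨⟨⟨fun x => x.1.2, ?_⟩, ?_⟩⟩
  · rintro ⟨⟨a, ξ⟩, hx⟩ ⟨⟨b, η⟩, hy⟩ (h : ξ = η)
    have : a = b := Fin.ext ((hC _ hx).trans (hC _ hy).symm)
    subst this
    subst h
    rfl
  · rintro ⟨⟨a, ξ⟩, hx⟩ ⟨⟨b, η⟩, hy⟩
    have : a = b := Fin.ext ((hC _ hx).trans (hC _ hy).symm)
    subst this
    change ξ ≤ η ↔ (⟨a, ξ⟩ : Copies n) ≤ ⟨a, η⟩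
    rw [Sigma.mk_le_mk_iff]

theorem copies_le_two {n : ℕ} (hn : n ≤ 2) (K : Set (FS (Copies n))) (hK : IsClosed K) :
    Heights K ∧ CanonicallySkula K := by
  refine two_chains (C := {x : Copies n | x.1.1 = 0}) (D := {x : Copies n | x.1.1 = 1}) ?_
    (fiber_chain 0 {x : Copies n | x.1.1 = 0} fun x hx => hx)
    (fiber_chain 1 {x : Copies n | x.1.1 = 1} fun x hx => hx) K hK
  refine Set.eq_univ_of_forall fun x => ?_
  have := x.1.2
  simp only [Set.mem_union, Set.mem_setOf_eq]
  omega

/-- the `i`-th coordinate -/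
noncomputable def crd (i : ℕ) (p : Ordinal.{0} × Ordinal.{0} × Ordinal.{0}) : Ordinal.{0} :=
  if i = 0 then p.1 else if i = 1 then p.2.1 else if i = 2 then p.2.2 else 0

theorem crd_continuous (i : ℕ) : Continuous (crd i) := by
  unfold crd
  split_ifs
  · exact continuous_fst
  · exact continuous_fst.comp continuous_snd
  · exact continuous_snd.comp continuous_snd
  · exact continuous_const

theorem crd_le {p : Ordinal.{0} × Ordinal.{0} × Ordinal.{0}} (hp : p ∈ K0) (i : ℕ) :
    crd i p ≤ ω₁ := by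
  unfold crd
  rcases hp with ⟨h1, h2, h3⟩ | ⟨h1, h2, h3⟩ <;> split_ifs
  · exact h1.trans h2
  · exact h2
  · exact h3.le
  · exact zero_le
  · exact h1.le.trans (h2.trans h3)
  · exact h2.trans h3
  · exact h3
  · exact zero_le

theorem isClosed_K0 : IsClosed K0 := by
  have c1 : Continuous (fun p : Ordinal.{0} × Ordinal.{0} × Ordinal.{0} => p.1) := continuous_fst
  have c2 : Continuous (fun p : Ordinal.{0} × Ordinal.{0} × Ordinal.{0} => p.2.1) :=
    continuous_fst.comp continuous_snd
  have c3 : Continuous (fun p : Ordinal.{0} × Ordinal.{0} × Ordinal.{0} => p.2.2) :=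
    continuous_snd.comp continuous_snd
  exact ((isClosed_le c1 c2).inter ((isClosed_le c2 continuous_const).inter
    (isClosed_eq c3 continuous_const))).union
    ((isClosed_eq c1 c2).inter ((isClosed_le c2 c3).inter (isClosed_le c3 continuous_const)))

theorem isCompact_K0 : IsCompact K0 := by
  have h1 : IsCompact (Set.Icc (0 : Ordinal.{0}) ω₁) := isCompact_Icc
  refine (h1.prod (h1.prod h1)).of_isClosed_subset isClosed_K0 ?_
  intro p hp
  exact ⟨⟨zero_le, crd_le hp 0⟩, ⟨zero_le, crd_le hp 1⟩, ⟨zero_le, crd_le hp 2⟩⟩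

noncomputable def Phi (n : ℕ) (p : K0) : FS (Copies n) :=
  ⟨fun x => decide (crd x.1.1 p.1 ≤ od x.2), by
    rintro ⟨i, ξ⟩ ⟨j, η⟩ hle h1
    obtain ⟨_, _, _, h2⟩ := hle
    rw [decide_eq_true_eq] at h1 ⊢
    exact h1.trans (od_le_od.2 h2)⟩

theorem continuous_Phi (n : ℕ) : Continuous (Phi n) := by
  refine Continuous.subtype_mk (continuous_pi fun x => ?_) _
  have h1 : Continuous (fun a : Ordinal.{0} => decide (a ≤ od x.2)) := by
    rw [continuous_bool_rng true]
    have h2 : (fun a : Ordinal.{0} => decide (a ≤ od x.2)) ⁻¹' {true} = Set.Iio (od x.2 + 1) := by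
      ext a
      simp [Order.lt_add_one_iff]
    have h3 : (fun a : Ordinal.{0} => decide (a ≤ od x.2)) ⁻¹' {true} = Set.Iic (od x.2) := by
      ext a
      simp
    exact ⟨h3 ▸ isClosed_Iic, h2 ▸ isOpen_Iio⟩
  exact h1.comp ((crd_continuous x.1.1).comp continuous_subtype_val)

theorem injective_Phi {n : ℕ} (hn : 3 ≤ n) : Function.Injective (Phi n) := by
  intro p q hpq
  have key : ∀ i < 3, crd i p.1 = crd i q.1 := by
    intro i hi
    have h1 : ∀ ξ, (crd i p.1 ≤ od ξ ↔ crd i q.1 ≤ od ξ) := by
      intro ξ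
      have := congrFun (congrArg Subtype.val hpq) ⟨⟨i, by omega⟩, ξ⟩
      simpa [Phi] using this
    by_contra hne
    rcases lt_or_gt_of_ne hne with h2 | h2
    · obtain ⟨ξ, hξ⟩ := od_surj (lt_of_lt_of_le h2 (crd_le q.2 i))
      exact not_le.2 h2 (hξ ▸ (h1 ξ).1 hξ.ge)
    · obtain ⟨ξ, hξ⟩ := od_surj (lt_of_lt_of_le h2 (crd_le p.2 i))
      exact not_le.2 h2 (hξ ▸ (h1 ξ).2 hξ.ge)
  apply Subtype.ext
  ext1
  · exact key 0 (by norm_num)
  · ext1
    · exact key 1 (by norm_num)
    · exact key 2 (by norm_num)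

/-- **Main result.**
(1) Let a poset `P` be the union of two chains, each of which embeds into `ω₁` or into the reverse
of `ω₁`. Then every closed subspace of `FS(P)` is scattered and canonically Skula.
(2) Let `P` be the disjoint sum of `n` copies of `ω₁` (narrow and order-scattered). If `n ≤ 2` then
every closed subspace of `FS(P) = (ω₁+1)^n` is canonically Skula; if `n ≥ 3` then some closed
(scattered) subspace is not. -/
theorem result :
    (∀ (P : Type) [PartialOrder P] (C D : Set P), C ∪ D = Set.univ → OmegaChain C → OmegaChain D →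
      ∀ K : Set (FS P), IsClosed K → Heights K ∧ CanonicallySkula K) ∧
    (∀ n : ℕ, Narrow (Copies n) ∧ OrderScattered (Copies n) ∧
      (n ≤ 2 → ∀ K : Set (FS (Copies n)), IsClosed K → Heights K ∧ CanonicallySkula K) ∧
      (3 ≤ n → ∃ K : Set (FS (Copies n)), IsClosed K ∧ Heights K ∧ ¬ CanonicallySkula K)) := by
  refine ⟨fun P _ C D h1 h2 h3 K hK => two_chains h1 h2 h3 K hK, fun n => ⟨narrow_copies n,
    scattered_copies n, fun hn K hK => copies_le_two hn K hK, fun hn => ?_⟩⟩
  have : CompactSpace K0 := isCompact_iff_compactSpace.1 isCompact_K0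
  have hce := (continuous_Phi n).isClosedEmbedding (injective_Phi hn)
  refine ⟨Set.range (Phi n), hce.isClosed_range, ?_, ?_⟩
  · exact fun x => height hce.isEmbedding.toHomeomorph x
  · exact core hce.isEmbedding.toHomeomorph

end Pool.Agent.Results.MP_87b039_gt.CopiesOfOmegaOne
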