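import Pool.Agent.KS6_46.WT.Core2

set_option autoImplicit false

/-! # Width two: a closed subspace of `FS(P)` without canonical clopen selector

`P` is the disjoint sum of two well orders of types `α ≥ ω₁·ω₁` and `β ≥ ω₁`. -/

open Ordinal Set Order Topology

namespace Pool.Agent.Results.MP_87b039_gt.WidthTwo

open Pool.Agent.R736.SK Pool.Agent.KS6_46.WT

/-- The disjoint sum of a well order of type `α` and a well order of type `β` (elements of different
summands are incomparable). -/
abbrev P2 (α β : Ordinal.{0}) : Type := α.ToType ⊕ β.ToType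

variable {α β : Ordinal.{0}}

/-- the ordinal of an element of `α` -/
noncomputable def od (ξ : α.ToType) : Ordinal.{0} := (ToType.mk.symm ξ).1

theorem od_le_od {ξ η : α.ToType} : od ξ ≤ od η ↔ ξ ≤ η := by
  rw [od, od, Subtype.coe_le_coe, OrderIso.le_iff_le]

theorem od_surj {a : Ordinal.{0}} (ha : a < α) : ∃ ξ : α.ToType, od ξ = a := by
  refine ⟨ToType.mk ⟨a, ha⟩, ?_⟩
  rw [od, OrderIso.symm_apply_apply]

theorem width (s : Set (P2 α β)) (hs : IsAntichain (· ≤ ·) s) : s.encard ≤ 2 := by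
  have hinj : Set.InjOn (Sum.isLeft : P2 α β → Bool) s := by
    rintro (x | x) hx (y | y) hy hxy
    · by_contra hne
      rcases le_total x y with h1 | h1
      · exact hs hx hy hne (Sum.inl_le_inl_iff.2 h1)
      · exact hs hy hx (Ne.symm hne) (Sum.inl_le_inl_iff.2 h1)
    · simp at hxy
    · simp at hxy
    · by_contra hne
      rcases le_total x y with h1 | h1
      · exact hs hx hy hne (Sum.inr_le_inr_iff.2 h1)
      · exact hs hy hx (Ne.symm hne) (Sum.inr_le_inr_iff.2 h1)
  rw [← hinj.encard_image]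
  calc _ ≤ (Set.univ : Set Bool).encard := Set.encard_le_encard (Set.subset_univ _)
    _ = 2 := by rw [Set.encard_univ, ENat.card_eq_coe_fintype_card]; rfl

theorem narrow_P2 : Narrow (P2 α β) := fun s hs =>
  Set.finite_of_encard_le_coe (k := 2) (width s hs)

theorem wf_P2 : WellFoundedLT (P2 α β) := by
  refine ⟨?_⟩
  have h1 : ∀ x y : P2 α β, x < y → Sum.Lex (· < ·) (· < ·) x y := by
    rintro (x | x) (y | y) h
    · exact Sum.Lex.inl (Sum.inl_lt_inl_iff.1 h)
    · exact absurd h Sum.not_inl_lt_inr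
    · exact absurd h Sum.not_inr_lt_inl
    · exact Sum.Lex.inr (Sum.inr_lt_inr_iff.1 h)
  exact Subrelation.wf (h1 _ _) (Sum.lex_wf wellFounded_lt wellFounded_lt)

theorem scattered_P2 : OrderScattered (P2 α β) := by
  refine ⟨fun f => ?_⟩
  have hwf : WellFoundedLT (P2 α β) := wf_P2
  have : WellFoundedLT ℚ := f.strictMono.wellFoundedLT
  have hanti : StrictAnti (fun n : ℕ => (-(n : ℚ))) := fun a b hab => by
    simpa using hab
  obtain ⟨n, hn⟩ := WellFounded.has_min (wellFounded_lt : WellFounded ((· < ·) : ℚ → ℚ → Prop))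
    (Set.range (fun n : ℕ => (-(n : ℚ)))) (Set.range_nonempty _)
  obtain ⟨⟨k, rfl⟩, hmin⟩ := hn
  exact hmin _ ⟨k + 1, rfl⟩ (hanti (Nat.lt_succ_self k))

/-- the final set of `P2 α β` determined by two ordinals -/
noncomputable def Phi (α β : Ordinal.{0}) (p : K1) : FS (P2 α β) :=
  ⟨Sum.elim (fun ξ => decide (p.1.1 ≤ od ξ)) (fun η => decide (p.1.2 ≤ od η)), by
    rintro (x | x) (y | y) hle h1
    · simp only [Sum.elim_inl, decide_eq_true_eq] at h1 ⊢
      exact h1.trans (od_le_od.2 (Sum.inl_le_inl_iff.1 hle))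
    · exact absurd hle Sum.not_inl_le_inr
    · exact absurd hle Sum.not_inr_le_inl
    · simp only [Sum.elim_inr, decide_eq_true_eq] at h1 ⊢
      exact h1.trans (od_le_od.2 (Sum.inr_le_inr_iff.1 hle))⟩

theorem cont_dec (c : Ordinal.{0}) : Continuous (fun a : Ordinal.{0} => decide (a ≤ c)) := by
  rw [continuous_bool_rng true]
  have h2 : (fun a : Ordinal.{0} => decide (a ≤ c)) ⁻¹' {true} = Set.Iio (c + 1) := by
    ext a
    simp [Order.lt_add_one_iff]
  have h3 : (fun a : Ordinal.{0} => decide (a ≤ c)) ⁻¹' {true} = Set.Iic c := by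
    ext a
    simp
  exact ⟨h3 ▸ isClosed_Iic, h2 ▸ isOpen_Iio⟩

theorem continuous_Phi : Continuous (Phi α β) := by
  refine Continuous.subtype_mk (continuous_pi fun x => ?_) _
  rcases x with ξ | η
  · exact (cont_dec (od ξ)).comp (continuous_fst.comp continuous_subtype_val)
  · exact (cont_dec (od η)).comp (continuous_snd.comp continuous_subtype_val)

theorem eq_of_dec {a b : Ordinal.{0}} (ha : a ≤ α) (hb : b ≤ α)
    (h : ∀ ξ : α.ToType, a ≤ od ξ ↔ b ≤ od ξ) : a = b := by
  by_contra hne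
  rcases lt_or_gt_of_ne hne with h2 | h2
  · obtain ⟨ξ, hξ⟩ := od_surj (lt_of_lt_of_le h2 hb)
    exact not_le.2 h2 (hξ ▸ (h ξ).1 hξ.ge)
  · obtain ⟨ξ, hξ⟩ := od_surj (lt_of_lt_of_le h2 ha)
    exact not_le.2 h2 (hξ ▸ (h ξ).2 hξ.ge)

theorem injective_Phi (hα : ω₁ * ω₁ ≤ α) (hβ : ω₁ ≤ β) : Function.Injective (Phi α β) := by
  intro p q hpq
  have h0 := congrArg Subtype.val hpq
  apply Subtype.ext
  refine Prod.ext (eq_of_dec ((K1_le p.2).1.trans hα) ((K1_le q.2).1.trans hα) fun ξ => ?_)
    (eq_of_dec ((K1_le p.2).2.trans hβ) ((K1_le q.2).2.trans hβ) fun η => ?_)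
  · have := congrFun h0 (Sum.inl ξ)
    simpa [Phi] using this
  · have := congrFun h0 (Sum.inr η)
    simpa [Phi] using this

/-- `K1` has a clopen selector -/
theorem skula {X : Type} [TopologicalSpace X] (h : K1 ≃ₜ X) :
    ∃ U : X → Set X, IsClopenSelector U := by
  refine ⟨fun x => {q | co h q ≤ co h x}, fun x => ⟨?_, open_le (co_cont h) _⟩, fun x => (le_refl (co h x) : co h x ≤ co h x),
    fun x y hxy => ?_, fun x y hyx q hq =>
      show co h q ≤ co h x from (show co h q ≤ co h y from hq).trans hyx⟩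
  · exact isClosed_le (co_cont h) continuous_const
  · by_contra hcon
    push Not at hcon
    exact hxy (co_inj h (le_antisymm hcon.1 hcon.2))

/-- For `P` the disjoint sum of two well orders of types `α ≥ ω₁·ω₁` and `β ≥ ω₁` (a well-founded
order-scattered poset all of whose antichains have at most two elements), some closed subspace `K`
of `FS(P)` has a clopen selector but no canonical clopen selector. -/
theorem result (α β : Ordinal.{0}) (hα : ω₁ * ω₁ ≤ α) (hβ : ω₁ ≤ β) :
    (∀ s : Set (P2 α β), IsAntichain (· ≤ ·) s → s.encard ≤ 2) ∧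
    Narrow (P2 α β) ∧ WellFoundedLT (P2 α β) ∧ OrderScattered (P2 α β) ∧
    ∃ K : Set (FS (P2 α β)), IsClosed K ∧
      (∀ x : K, ∃ γ : Ordinal.{0}, x ∈ cb K γ ∧ x ∉ cb K (γ + 1)) ∧
      (∃ U : K → Set K, IsClopenSelector U) ∧ ¬ CanonicallySkula K := by
  have : CompactSpace K1 := isCompact_iff_compactSpace.1 isCompact_K1
  have hce := continuous_Phi.isClosedEmbedding (injective_Phi hα hβ)
  refine ⟨width, narrow_P2, wf_P2, scattered_P2, Set.range (Phi α β), hce.isClosed_range, ?_, ?_, ?_⟩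
  · exact fun x => height (co_cont hce.isEmbedding.toHomeomorph)
      (co_inj hce.isEmbedding.toHomeomorph) x
  · exact skula hce.isEmbedding.toHomeomorph
  · exact core2 hce.isEmbedding.toHomeomorph

end Pool.Agent.Results.MP_87b039_gt.WidthTwo
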